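import Pool.Agent.Helper403.Fit.Main

set_option autoImplicit false

namespace Pool.Agent.Results.MP_035081_al.SaturatedIsLocal

open Pool.Agent.Helper403.Fit

/-- Sanity check: `Psi G` is the least normal subgroup `N` of `G` with
`lFit (N ∩ M) = lFit M` for every subnormal subgroup `M` of `G`. -/
theorem psi_spec (G : Type) [Group G] [Finite G] : IsLeast (PsiSet G) (Psi G) :=
  psi_isLeast G

/-- Sanity check: for a nonempty Fitting class `X`, `rad X G` is the largest normal
`X`-subgroup of `G`. -/
theorem rad_spec (X : GroupClass) (hX : IsFittingClass X) (hne : X.Nonempty) (G : Type)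
    [Group G] [Finite G] : IsGreatest {N : Subgroup G | N.Normal ∧ X.Mem N} (rad X G) :=
  ⟨⟨rad_normal X G, rad_mem hX hne⟩, fun _ hN => le_rad hN.1 hN.2⟩

/-- Every nonempty soluble saturated Fitting class is local. -/
theorem result (F : GroupClass) (hF : IsFittingClass F) (hne : F.Nonempty)
    (hsol : ∀ (G : Type) [Group G] [Finite G], F.Mem G → Group.IsSolvable G)
    (hsat : IsSaturated F) : IsLocal F :=
  main hF hne hsol hsat

end Pool.Agent.Results.MP_035081_al.SaturatedIsLocal
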